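import Pool.Agent.Y645.UL.Bas

set_option autoImplicit false

/-! # The pairs of units have the sum 1, and polynomials in monomials (helper of UL) -/

namespace Pool.Agent.Y331.UL

open MvPolynomial Module
open Pool.Agent.Y645.UL

theorem t_PAIR : Pool.Agent.Y645.UL.S_PAIR := by
  classical
  intro k L ι _ _ _ _ l c x z hz s
  have h1 : (z (Sum.inl ()) : L) = -1 := by
    rw [hz]
    simp [GG]
  have h2 : ∀ j, (z (Sum.inr (Sum.inl j)) : L) = x j := by
    intro j
    rw [hz]
    simp [GG]
  rcases s with j | ⟨j, t⟩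
  · have h3 : (z (Sum.inr (Sum.inr (Sum.inl (j : ι)))) : L) = 1 - x j := by
      rw [hz]
      simp [GG, j.2]
    have e1 : mon z (uu l c (Sum.inl j)) = z (Sum.inr (Sum.inl (j : ι))) := by
      rw [uu, mon_single, zpow_one]
    have e2 : mon z (vv l c (Sum.inl j)) = z (Sum.inr (Sum.inr (Sum.inl (j : ι)))) := by
      rw [vv, mon_single, zpow_one]
    rw [e1, e2, h2, h3]
    ring
  · have h3 : ∀ r : Fin ((l j).length - 1), (z (iP l j r) : L) =
        ev (fun j => (x j : L)) ((l j).take (r + 1)) := by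
      intro r
      rw [hz]
      simp only [GG]
      exact aeval_ev _ _
    have e1 : mon z (uu l c (Sum.inr ⟨j, t⟩)) = z (iP l j (lo l j t)) / z (iP l j (hi l j t)) := by
      rw [uu, mon_sub, mon_single, mon_single, zpow_one, zpow_one]
    have e2 : mon z (vv l c (Sum.inr ⟨j, t⟩)) =
        mon z (mexp l (nx l j t)) / z (iP l j (hi l j t)) := by
      rw [vv, mon_sub, mon_single, zpow_one]
    have ht := t.2
    have e3 : (z (iP l j (hi l j t)) : L) = z (iP l j (lo l j t)) +
        mval (fun j => (x j : L)) (nx l j t) := by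
      rw [h3, h3]
      exact ev_take_succ _ _ ((t : ℕ) + 1) (by omega)
    have hne : (z (iP l j (hi l j t)) : L) ≠ 0 := Units.ne_zero _
    rw [e1, e2, Units.val_div_eq_div_val, Units.val_div_eq_div_val, mon_mexp l x z h1 h2,
      ← add_div, ← e3, div_self hne]

theorem t_PULL : Pool.Agent.Y645.UL.S_PULL := by
  intro k ι N τ _ _ _ _ G u f
  set K : ℕ := ∑ s, ∑ n, (u s n).natAbs with hKdef
  have hK : ∀ s n, 0 ≤ (K : ℤ) + u s n := by
    intro s n
    have h1 : (u s n).natAbs ≤ ∑ n, (u s n).natAbs :=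
      Finset.single_le_sum (f := fun n => (u s n).natAbs) (fun _ _ => Nat.zero_le _)
        (Finset.mem_univ n)
    have h2 : ∑ n, (u s n).natAbs ≤ K :=
      Finset.single_le_sum (f := fun s => ∑ n, (u s n).natAbs) (fun _ _ => Nat.zero_le _)
        (Finset.mem_univ s)
    omega
  let q : MvPolynomial ι k := ∏ n, G n ^ K
  let p : τ → MvPolynomial ι k := fun s => ∏ n, G n ^ ((K : ℤ) + u s n).toNat
  have hq : ∀ (L : Type) [Field L] [Algebra k L] (x : ι → Lˣ) (z : N → Lˣ),
      (∀ n, (z n : L) = aeval (fun j => (x j : L)) (G n)) →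
      aeval (fun j => (x j : L)) q = ∏ n, (z n : L) ^ K := by
    intro L _ _ x z hz
    simp only [q, map_prod, map_pow]
    exact Finset.prod_congr rfl fun n _ => by rw [hz]
  have hq0 : ∀ (L : Type) [Field L] [Algebra k L] (x : ι → Lˣ) (z : N → Lˣ),
      (∀ n, (z n : L) = aeval (fun j => (x j : L)) (G n)) →
      aeval (fun j => (x j : L)) q ≠ 0 := by
    intro L _ _ x z hz
    rw [hq L x z hz]
    exact Finset.prod_ne_zero_iff.2 fun n _ => pow_ne_zero _ (Units.ne_zero _)
  have hp : ∀ (L : Type) [Field L] [Algebra k L] (x : ι → Lˣ) (z : N → Lˣ),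
      (∀ n, (z n : L) = aeval (fun j => (x j : L)) (G n)) → ∀ s,
      aeval (fun j => (x j : L)) (p s) = aeval (fun j => (x j : L)) q * (mon z (u s) : L) := by
    intro L _ _ x z hz s
    rw [hq L x z hz, mon, Units.coe_prod, ← Finset.prod_mul_distrib]
    simp only [p, map_prod, map_pow]
    refine Finset.prod_congr rfl fun n _ => ?_
    rw [← hz, Units.val_zpow_eq_zpow_val, ← zpow_natCast, ← zpow_natCast,
      Int.toNat_of_nonneg (hK s n), zpow_add₀ (Units.ne_zero _)]
  have key : ∀ f : MvPolynomial τ k, ∃ (g : MvPolynomial ι k) (M : ℕ),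
      ∀ (L : Type) [Field L] [Algebra k L] (x : ι → Lˣ) (z : N → Lˣ),
      (∀ n, (z n : L) = aeval (fun j => (x j : L)) (G n)) →
      aeval (fun j => (x j : L)) g = (aeval (fun j => (x j : L)) q) ^ M *
        aeval (fun s => (mon z (u s) : L)) f := by
    intro f
    induction f using MvPolynomial.induction_on with
    | C a =>
      refine ⟨C a, 0, ?_⟩
      intro L _ _ x z hz
      simp
    | add f1 f2 h1 h2 =>
      obtain ⟨g1, M1, H1⟩ := h1
      obtain ⟨g2, M2, H2⟩ := h2
      refine ⟨q ^ M2 * g1 + q ^ M1 * g2, M1 + M2, ?_⟩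
      intro L _ _ x z hz
      rw [map_add, map_mul, map_mul, map_pow, map_pow, H1 L x z hz, H2 L x z hz, map_add]
      ring
    | mul_X f1 s h1 =>
      obtain ⟨g1, M1, H1⟩ := h1
      refine ⟨g1 * p s, M1 + 1, ?_⟩
      intro L _ _ x z hz
      rw [map_mul, H1 L x z hz, hp L x z hz, map_mul, aeval_X]
      ring
  obtain ⟨g, M, H⟩ := key f
  refine ⟨g, ?_⟩
  intro L _ _ x z hz
  rw [H L x z hz]
  constructor
  · intro h
    exact (mul_eq_zero.mp h).resolve_left (pow_ne_zero _ (hq0 L x z hz))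
  · intro h
    rw [h, mul_zero]

end Pool.Agent.Y331.UL
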